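import Pool.Agent.R107.MLC2

/-!
# Log-concavity of the specialization `S_n(m, 1)`

`mc a` is the polynomial `((m choose a)) = m (m+1) ... (m+a-1) / a!` in `ℚ[m]`, and `S r` is the
polynomial `S_n(m, t)` for `n = 2 r + 1`, as a polynomial in `t` with coefficients in `ℚ[m]`.
For every `r ≥ 1` the polynomial `S_n(m, 1)` is log-concave.
-/

set_option autoImplicit false

namespace Pool.Agent.Results.MP_523fe6_co.SpecializationLogConcave

open Polynomial Finset Pool.Agent.R107

/-- The polynomial `((m choose a)) = (1 / a!) ∏_{s=0}^{a-1} (m + s)` of `ℚ[m]`. -/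
noncomputable def mc (a : ℕ) : ℚ[X] :=
  C (1 / (a.factorial : ℚ)) * ∏ s ∈ range a, (X + C (s : ℚ))

/-- `S_n(m, t)` for `n = 2 r + 1`, a polynomial in `t` (the outer variable) over `ℚ[m]`:
`∑_{i=0}^{r-1} (∑_{s=0}^{r-i-1} t^(i+2s)) ((m choose i)) ((m choose n-i))`. -/
noncomputable def S (r : ℕ) : (ℚ[X])[X] :=
  ∑ i ∈ range r, (∑ s ∈ range (r - i), X ^ (i + 2 * s)) * C (mc i * mc (2 * r + 1 - i))

theorem eval_one (r : ℕ) : (S r).eval 1 =
    ∑ i ∈ range r, C ((r : ℚ) - i) * (mc i * mc (2 * r + 1 - i)) := by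
  unfold S
  rw [eval_finsetSum]
  apply sum_congr rfl
  intro i hi
  have hi' : i ≤ r := (mem_range.mp hi).le
  rw [eval_mul, eval_C, eval_finsetSum]
  congr 1
  simp only [eval_pow, eval_X, one_pow, sum_const, card_range, nsmul_eq_mul, mul_one]
  rw [← Nat.cast_sub hi', map_natCast]

theorem map_mc (a : ℕ) : (mc a).map (algebraMap ℚ ℝ) = MLC.h a := by
  unfold mc MLC.h
  rw [Polynomial.map_mul, map_C, Polynomial.map_prod]
  congr 1
  · congr 1
    simp
  · apply prod_congr rfl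
    intro s _
    simp

theorem map_S (r : ℕ) : ((S r).eval 1).map (algebraMap ℚ ℝ) =
    ∑ i ∈ range r, C ((r : ℝ) - i) * (MLC.h i * MLC.h (2 * r + 1 - i)) := by
  rw [eval_one, Polynomial.map_sum]
  apply sum_congr rfl
  intro i _
  rw [Polynomial.map_mul, Polynomial.map_mul, map_mc, map_mc, map_C]
  simp

/-- Q2: for every odd `n = 2 r + 1 ≥ 3` the polynomial `S_n(m, 1)` is log-concave (and all its
coefficients are nonnegative). -/
theorem result : ∀ r : ℕ, 1 ≤ r →
    (∀ l : ℕ, ((S r).eval 1).coeff l * ((S r).eval 1).coeff (l + 2) ≤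
      (((S r).eval 1).coeff (l + 1)) ^ 2) ∧ ∀ l : ℕ, 0 ≤ ((S r).eval 1).coeff l := by
  intro r hr
  obtain ⟨h0, h1⟩ := MLC.PF_main r hr
  rw [← map_S] at h0 h1
  have hc : ∀ k : ℕ, (C 2 * ((S r).eval 1).map (algebraMap ℚ ℝ)).coeff k =
      2 * ((((S r).eval 1).coeff k : ℚ) : ℝ) := by
    intro k
    rw [coeff_C_mul, coeff_map]
    rfl
  constructor
  · intro l
    have h := h1 l l le_rfl
    rw [hc, hc, hc] at h
    have h' : ((((S r).eval 1).coeff l * ((S r).eval 1).coeff (l + 2) : ℚ) : ℝ) ≤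
        ((((S r).eval 1).coeff (l + 1) ^ 2 : ℚ) : ℝ) := by
      push_cast
      linarith
    exact_mod_cast h'
  · intro l
    have h := h0 l
    rw [hc] at h
    have h' : (0 : ℝ) ≤ ((((S r).eval 1).coeff l : ℚ) : ℝ) := by linarith
    exact_mod_cast h'

end Pool.Agent.Results.MP_523fe6_co.SpecializationLogConcave
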